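import Mathlib

/-! SG-AC (project SG of helper341, MP_2b9fb5_al), part 1: flipping bits on fibres of size two. -/

set_option autoImplicit false

namespace Pool.Agent.R568.SG

open Finset

namespace Ac

/-! ### central binomial coefficients -/

theorem cb (m : ℕ) : (2 * m + 1) * (m.centralBinom) ^ 2 ≤ 16 ^ m := by
  induction m with
  | zero => simp
  | succ m ih =>
    have h1 := Nat.succ_mul_centralBinom_succ m
    refine Nat.le_of_mul_le_mul_right ?_ (show 0 < (m + 1) ^ 2 by positivity)
    calc (2 * (m + 1) + 1) * (m + 1).centralBinom ^ 2 * (m + 1) ^ 2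
        = (2 * m + 3) * ((m + 1) * (m + 1).centralBinom) ^ 2 := by ring
      _ = (2 * m + 3) * (2 * (2 * m + 1) * m.centralBinom) ^ 2 := by rw [h1]
      _ = (4 * ((2 * m + 3) * (2 * m + 1))) * ((2 * m + 1) * m.centralBinom ^ 2) := by ring
      _ ≤ (4 * (2 * m + 2) ^ 2) * 16 ^ m := by
          refine Nat.mul_le_mul ?_ ih
          nlinarith
      _ = 16 ^ (m + 1) * (m + 1) ^ 2 := by ring

theorem mid (p : ℕ) : (p + 1) * (p.choose (p / 2)) ^ 2 ≤ 4 ^ p := by
  rcases Nat.even_or_odd' p with ⟨m, h | h⟩
  · subst h
    have e : 2 * m / 2 = m := by omega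
    rw [e]
    have := cb m
    unfold Nat.centralBinom at this
    calc (2 * m + 1) * ((2 * m).choose m) ^ 2 ≤ 16 ^ m := this
      _ = 4 ^ (2 * m) := by rw [pow_mul]; norm_num
  · subst h
    have e : (2 * m + 1) / 2 = m := by omega
    rw [e]
    have h1 := cb (m + 1)
    have h2 : (m + 1).centralBinom = 2 * (2 * m + 1).choose m := by
      unfold Nat.centralBinom
      have e2 : 2 * (m + 1) = 2 * m + 1 + 1 := by ring
      rw [e2, Nat.choose_succ_succ, ← Nat.choose_symm_half m]
      ring
    rw [h2] at h1
    have h3 : (2 * m + 3) * (2 * m + 1).choose m ^ 2 * 4 ≤ 4 ^ (2 * m + 1) * 4 := by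
      calc (2 * m + 3) * (2 * m + 1).choose m ^ 2 * 4
          = (2 * (m + 1) + 1) * (2 * (2 * m + 1).choose m) ^ 2 := by ring
        _ ≤ 16 ^ (m + 1) := h1
        _ = 4 ^ (2 * m + 1) * 4 := by
            rw [← pow_succ]
            have : 2 * m + 1 + 1 = 2 * (m + 1) := by ring
            rw [this, pow_mul]
            norm_num
    have h4 := Nat.le_of_mul_le_mul_right h3 (by norm_num)
    refine le_trans (Nat.mul_le_mul_right _ ?_) h4
    omega

theorem midR (p : ℕ) : (p.choose (p / 2) : ℝ) ≤ 2 ^ p / Real.sqrt ((p : ℝ) + 1) := by
  have h := mid p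
  have h' : ((p : ℝ) + 1) * (p.choose (p / 2) : ℝ) ^ 2 ≤ 4 ^ p := by exact_mod_cast h
  have hp : (0 : ℝ) < (p : ℝ) + 1 := by positivity
  have hs : 0 < Real.sqrt ((p : ℝ) + 1) := Real.sqrt_pos.mpr hp
  rw [le_div_iff₀ hs]
  refine abs_le_of_sq_le_sq' ?_ (by positivity) |>.2
  rw [mul_pow, Real.sq_sqrt hp.le, ← pow_mul, mul_comm p 2, pow_mul]
  norm_num
  linarith

/-! ### flips -/

theorem flipcount {B ι : Type} [Fintype B] [DecidableEq B] [DecidableEq ι] (T : Finset ι)
    (fl : Finset ι → B → B) (hfl : ∀ S, Function.Injective (fl S)) (rank A : B → ℕ)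
    (D : B → Finset ι) (hD : ∀ β, D β ⊆ T)
    (hr : ∀ β, ∀ S ⊆ T, rank (fl S β) = A β + (symmDiff (D β) S).card) (j : ℕ) :
    2 ^ T.card * (univ.filter fun β => rank β = j).card
      ≤ Fintype.card B * (T.card).choose (T.card / 2) := by
  have h1 : ∀ S ∈ T.powerset, (univ.filter fun β => rank β = j).card
      = ∑ β : B, if rank (fl S β) = j then 1 else 0 := by
    intro S _
    rw [card_filter]
    exact (Function.Bijective.sum_comp (Finite.injective_iff_bijective.mp (hfl S))
      (fun β => if rank β = j then 1 else 0)).symm
  calc 2 ^ T.card * (univ.filter fun β => rank β = j).card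
      = ∑ _S ∈ T.powerset, (univ.filter fun β => rank β = j).card := by
        rw [sum_const, card_powerset, smul_eq_mul]
    _ = ∑ S ∈ T.powerset, ∑ β : B, if rank (fl S β) = j then 1 else 0 := sum_congr rfl h1
    _ = ∑ β : B, ∑ S ∈ T.powerset, if rank (fl S β) = j then 1 else 0 := sum_comm
    _ ≤ ∑ _β : B, (T.card).choose (T.card / 2) := by
        refine sum_le_sum fun β _ => ?_
        rw [← card_filter]
        calc (T.powerset.filter fun S => rank (fl S β) = j).card
            ≤ (powersetCard (j - A β) T).card := by
              refine card_le_card_of_injOn (fun S => symmDiff (D β) S) ?_ ?_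
              · intro S hS
                rw [mem_coe, mem_filter, mem_powerset] at hS
                rw [mem_coe, mem_powersetCard]
                have h2 := hr β S hS.1
                have h3 : (symmDiff (D β) S).card = j - A β := by
                  have h4 := hS.2
                  omega
                refine ⟨?_, h3⟩
                intro x hx
                rw [mem_symmDiff] at hx
                rcases hx with hx | hx
                · exact hD β hx.1
                · exact hS.1 hx.1
              · intro S _ S' _ h
                exact symmDiff_right_injective (D β) h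
          _ = (T.card).choose (j - A β) := card_powersetCard _ _
          _ ≤ (T.card).choose (T.card / 2) := Nat.choose_le_middle _ _
    _ = Fintype.card B * (T.card).choose (T.card / 2) := by
        rw [sum_const, card_univ, smul_eq_mul]

/-! ### fibres -/

/-- fibres -/
def fib {α β : Type} [Fintype α] [DecidableEq β] (g : α → β) (i : β) : Finset α :=
  univ.filter fun x => g x = i

/-- the values taken exactly twice -/
def two {α β : Type} [Fintype α] [DecidableEq β] [Fintype β] (g : α → β) : Finset β :=
  univ.filter fun i => (fib g i).card = 2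

/-- the size of the image of a pair of maps -/
theorem card_image_pair {α β : Type} [Fintype α] [DecidableEq β] [Fintype β] (g : α → β)
    (b : α → Bool) : (univ.image fun x => (g x, b x)).card
      = ∑ i, ((fib g i).image b).card := by
  classical
  rw [card_eq_sum_card_fiberwise (f := Prod.fst) (t := univ) (fun x _ => by simp)]
  refine sum_congr rfl fun i _ => ?_
  have : ((univ.image fun x => (g x, b x)).filter fun z => z.1 = i)
      = ((fib g i).image b).image (fun c => (i, c)) := by
    ext ⟨u, v⟩
    simp only [mem_filter, mem_image, mem_univ, true_and, fib, Prod.mk.injEq]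
    constructor
    · rintro ⟨⟨x, rfl, rfl⟩, rfl⟩
      exact ⟨b x, ⟨x, rfl, rfl⟩, rfl, rfl⟩
    · rintro ⟨c, ⟨x, hx, rfl⟩, rfl, rfl⟩
      exact ⟨⟨x, hx, rfl⟩, rfl⟩
  rw [this, card_image_of_injective]
  intro c c' h
  exact (Prod.mk.inj h).2

theorem bits {α β : Type} [Fintype α] [DecidableEq α] [Nonempty α] [DecidableEq β] [Fintype β]
    (g : α → β) (j : ℕ) :
    2 ^ (two g).card * ((univ : Finset (α → Bool)).filter fun b =>
      (univ.image fun x => (g x, b x)).card = j).card
      ≤ 2 ^ Fintype.card α * ((two g).card).choose ((two g).card / 2) := by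
  classical
  have hex : ∀ i ∈ two g, ∃ x y, x ≠ y ∧ fib g i = {x, y} := by
    intro i hi
    exact card_eq_two.mp (mem_filter.mp hi).2
  choose! X Y hne hfib using hex
  have hX : ∀ i ∈ two g, g (X i) = i := by
    intro i hi
    have : X i ∈ fib g i := by rw [hfib i hi]; simp
    exact (mem_filter.mp this).2
  have hY : ∀ i ∈ two g, g (Y i) = i := by
    intro i hi
    have : Y i ∈ fib g i := by rw [hfib i hi]; simp
    exact (mem_filter.mp this).2
  have h := flipcount (B := α → Bool) (two g)
    (fun S b x => if g x ∈ S ∧ x = Y (g x) then !(b x) else b x)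
    (fun S => by
      intro b b' hb
      funext x
      have h1 := congrFun hb x
      simp only at h1
      split_ifs at h1
      · exact Bool.not_inj h1
      · exact h1)
    (fun b => (univ.image fun x => (g x, b x)).card)
    (fun b => ∑ i ∈ univ \ two g, ((fib g i).image b).card + (two g).card)
    (fun b => (two g).filter fun i => b (X i) ≠ b (Y i))
    (fun b => filter_subset _ _) ?_ j
  · rw [Fintype.card_fun, Fintype.card_bool] at h
    exact h
  · intro b S hS
    simp only
    rw [card_image_pair, ← sum_sdiff (subset_univ (two g)), add_assoc]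
    congr 1
    · refine sum_congr rfl fun i hi => ?_
      have hi' : i ∉ two g := (mem_sdiff.mp hi).2
      congr 1
      refine image_congr fun x hx => ?_
      have hgx : g x = i := (mem_filter.mp hx).2
      have : ¬ (g x ∈ S ∧ x = Y (g x)) := fun hc => hi' (hgx ▸ hS hc.1)
      simp only [this, if_false]
    · have h2 : ∀ i ∈ two g, ((fib g i).image fun x =>
          if g x ∈ S ∧ x = Y (g x) then !(b x) else b x).card
          = 1 + if i ∈ symmDiff ((two g).filter fun i => b (X i) ≠ b (Y i)) S then 1 else 0 := by
        intro i hi
        rw [hfib i hi, image_insert, image_singleton]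
        have e1 : (if g (X i) ∈ S ∧ X i = Y (g (X i)) then !(b (X i)) else b (X i))
            = b (X i) := by
          rw [if_neg]
          rintro ⟨-, hc⟩
          rw [hX i hi] at hc
          exact hne i hi hc
        have e2 : (if g (Y i) ∈ S ∧ Y i = Y (g (Y i)) then !(b (Y i)) else b (Y i))
            = if i ∈ S then !(b (Y i)) else b (Y i) := by
          rw [hY i hi]
          simp
        rw [e1, e2]
        by_cases hiS : i ∈ S
        · rw [if_pos hiS]
          by_cases hb : b (X i) = b (Y i)
          · have hm : i ∈ symmDiff ((two g).filter fun i => b (X i) ≠ b (Y i)) S := by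
              rw [mem_symmDiff]
              right
              refine ⟨hiS, fun hc => (mem_filter.mp hc).2 hb⟩
            rw [if_pos hm, hb, card_pair]
            cases b (Y i) <;> simp
          · have hm : i ∉ symmDiff ((two g).filter fun i => b (X i) ≠ b (Y i)) S := by
              rw [mem_symmDiff]
              rintro (hc | hc)
              · exact hc.2 hiS
              · exact hc.2 (mem_filter.mpr ⟨hi, hb⟩)
            have hb' : b (X i) = !(b (Y i)) := by
              revert hb
              cases b (X i) <;> cases b (Y i) <;> simp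
            rw [if_neg hm, hb']
            simp
        · rw [if_neg hiS]
          by_cases hb : b (X i) = b (Y i)
          · have hm : i ∉ symmDiff ((two g).filter fun i => b (X i) ≠ b (Y i)) S := by
              rw [mem_symmDiff]
              rintro (hc | hc)
              · exact (mem_filter.mp hc.1).2 hb
              · exact hiS hc.1
            rw [if_neg hm, hb]
            simp
          · have hm : i ∈ symmDiff ((two g).filter fun i => b (X i) ≠ b (Y i)) S := by
              rw [mem_symmDiff]
              left
              exact ⟨mem_filter.mpr ⟨hi, hb⟩, hiS⟩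
            rw [if_pos hm, card_pair hb]
      rw [sum_congr rfl h2, sum_add_distrib, sum_const, smul_eq_mul, mul_one]
      congr 1
      rw [← card_filter]
      congr 1
      ext i
      rw [mem_filter]
      constructor
      · exact fun hc => hc.2
      · intro hc
        refine ⟨?_, hc⟩
        rw [mem_symmDiff] at hc
        rcases hc with hc | hc
        · exact (mem_filter.mp hc.1).1
        · exact hS hc.1

end Ac

end Pool.Agent.R568.SG
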