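import Pool.Agent.R341.SG.Stm
import Pool.Agent.R568.SG.Ac1
import Pool.Agent.H999R2.KSat.ES

/-! SG-AC (project SG of helper341, MP_2b9fb5_al): anti-concentration of the rank. -/

set_option autoImplicit false

namespace Pool.Agent.R568.SG

open Finset Pool.Agent.R341.SG

namespace Ac

open Pool.Agent.H999R2.KSat (E efron_stein)

/-- number of values taken exactly twice when the coordinate `j` is ignored -/
def twoJ {n N : ℕ} (j : Fin n) (g : Fin n → Fin N) : Finset (Fin N) :=
  univ.filter fun i => ((univ.filter fun x => x ≠ j ∧ g x = i).card = 2)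

theorem twoJ_update {n N : ℕ} (j : Fin n) (g : Fin n → Fin N) (y : Fin N) :
    twoJ j (Function.update g j y) = twoJ j g := by
  unfold twoJ
  refine filter_congr fun i _ => ?_
  have : (univ.filter fun x => x ≠ j ∧ Function.update g j y x = i)
      = (univ.filter fun x => x ≠ j ∧ g x = i) := by
    refine filter_congr fun x _ => ?_
    constructor
    · rintro ⟨h1, h2⟩
      rw [Function.update_of_ne h1] at h2
      exact ⟨h1, h2⟩
    · rintro ⟨h1, h2⟩
      refine ⟨h1, ?_⟩
      rw [Function.update_of_ne h1]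
      exact h2
  rw [this]

theorem mem_two_iff {n N : ℕ} (j : Fin n) (g : Fin n → Fin N) (i : Fin N) (hi : g j ≠ i) :
    i ∈ two g ↔ i ∈ twoJ j g := by
  unfold two twoJ fib
  rw [mem_filter, mem_filter]
  have : (univ.filter fun x => g x = i) = (univ.filter fun x => x ≠ j ∧ g x = i) := by
    refine filter_congr fun x _ => ?_
    constructor
    · intro h
      refine ⟨fun hc => hi (hc ▸ h), h⟩
    · exact fun h => h.2
  rw [this]

theorem diff_le {n N : ℕ} (j : Fin n) (g : Fin n → Fin N) :
    (((two g).card : ℝ) - ((twoJ j g).card : ℝ)) ^ 2 ≤ 1 := by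
  have h1 : (two g).card ≤ (twoJ j g).card + 1 := by
    calc (two g).card ≤ (insert (g j) (twoJ j g)).card := by
          refine card_le_card fun i hi => ?_
          rw [mem_insert]
          by_cases h : g j = i
          · exact Or.inl h.symm
          · exact Or.inr ((mem_two_iff j g i h).mp hi)
      _ ≤ _ := card_insert_le _ _
  have h2 : (twoJ j g).card ≤ (two g).card + 1 := by
    calc (twoJ j g).card ≤ (insert (g j) (two g)).card := by
          refine card_le_card fun i hi => ?_
          rw [mem_insert]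
          by_cases h : g j = i
          · exact Or.inl h.symm
          · exact Or.inr ((mem_two_iff j g i h).mpr hi)
      _ ≤ _ := card_insert_le _ _
  have h1' : ((two g).card : ℝ) ≤ (twoJ j g).card + 1 := by exact_mod_cast h1
  have h2' : ((twoJ j g).card : ℝ) ≤ (two g).card + 1 := by exact_mod_cast h2
  rw [sq_le_one_iff_abs_le_one, abs_le]
  constructor <;> linarith

theorem variance (n N : ℕ) :
    E (fun g : Fin n → Fin N => ((two g).card : ℝ) ^ 2)
      - (E (fun g : Fin n → Fin N => ((two g).card : ℝ))) ^ 2 ≤ n := by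
  have h := efron_stein n (fun g : Fin n → Fin N => ((two g).card : ℝ))
    (fun j g => ((twoJ j g).card : ℝ)) (fun j F y => by rw [twoJ_update])
  refine h.trans ?_
  calc ∑ j : Fin n, E (fun F : Fin n → Fin N =>
        (((two F).card : ℝ) - ((twoJ j F).card : ℝ)) ^ 2) ≤ ∑ _j : Fin n, (1 : ℝ) := by
        refine sum_le_sum fun j _ => ?_
        unfold E
        refine div_le_one_of_le₀ ?_ (Nat.cast_nonneg _)
        calc ∑ x : Fin n → Fin N, (((two x).card : ℝ) - ((twoJ j x).card : ℝ)) ^ 2
            ≤ ∑ _x : Fin n → Fin N, (1 : ℝ) := sum_le_sum fun x _ => diff_le j x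
          _ = _ := by simp
    _ = n := by simp

theorem card_fib_eq {n N : ℕ} (i : Fin N) (S : Finset (Fin n)) :
    ((univ : Finset (Fin n → Fin N)).filter fun g => fib g i = S).card
      = (N - 1) ^ (n - S.card) := by
  classical
  have h1 : ((univ : Finset (Fin n → Fin N)).filter fun g => fib g i = S)
      = Fintype.piFinset (fun x => if x ∈ S then {i} else univ.erase i) := by
    ext g
    rw [mem_filter, Fintype.mem_piFinset]
    constructor
    · rintro ⟨-, h⟩ x
      by_cases hx : x ∈ S
      · rw [if_pos hx, mem_singleton]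
        rw [← h] at hx
        exact (mem_filter.mp hx).2
      · rw [if_neg hx, mem_erase]
        refine ⟨fun hc => hx ?_, mem_univ _⟩
        rw [← h]
        exact mem_filter.mpr ⟨mem_univ _, hc⟩
    · intro h
      refine ⟨mem_univ _, ?_⟩
      ext x
      have hx := h x
      unfold fib
      rw [mem_filter]
      by_cases hxS : x ∈ S
      · rw [if_pos hxS, mem_singleton] at hx
        exact ⟨fun _ => hxS, fun _ => ⟨mem_univ _, hx⟩⟩
      · rw [if_neg hxS, mem_erase] at hx
        exact ⟨fun hc => absurd hc.2 hx.1, fun hc => absurd hc hxS⟩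
  rw [h1, Fintype.card_piFinset]
  have h2 : ∀ x : Fin n, (if x ∈ S then ({i} : Finset (Fin N)) else univ.erase i).card
      = if x ∈ S then 1 else N - 1 := by
    intro x
    split_ifs
    · simp
    · rw [card_erase_of_mem (mem_univ _), card_univ, Fintype.card_fin]
  rw [prod_congr rfl fun x _ => h2 x, prod_ite, prod_const_one, one_mul, prod_const]
  congr 1
  have h3 : (univ.filter fun x => x ∉ S) = Sᶜ := by
    ext x; simp
  rw [h3, card_compl, Fintype.card_fin]

theorem card_fib_two {n N : ℕ} (i : Fin N) :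
    n.choose 2 * (N - 1) ^ (n - 2)
      ≤ ((univ : Finset (Fin n → Fin N)).filter fun g => i ∈ two g).card := by
  classical
  have h1 : ((univ : Finset (Fin n → Fin N)).filter fun g => i ∈ two g).card
      = ∑ S ∈ powersetCard 2 (univ : Finset (Fin n)),
        (((univ : Finset (Fin n → Fin N)).filter fun g => i ∈ two g).filter
          fun g => fib g i = S).card := by
    refine card_eq_sum_card_fiberwise (f := fun g : Fin n → Fin N => fib g i) ?_
    intro g hg
    have h2 : i ∈ two g := (mem_filter.mp hg).2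
    have h3 : (fib g i).card = 2 := (mem_filter.mp h2).2
    exact mem_coe.mpr (mem_powersetCard.mpr ⟨subset_univ _, h3⟩)
  rw [h1]
  calc n.choose 2 * (N - 1) ^ (n - 2)
      = ∑ _S ∈ powersetCard 2 (univ : Finset (Fin n)), (N - 1) ^ (n - 2) := by
        rw [sum_const, card_powersetCard, card_univ, Fintype.card_fin, smul_eq_mul]
    _ ≤ _ := by
        refine sum_le_sum fun S hS => ?_
        have hc : S.card = 2 := (mem_powersetCard.mp hS).2
        rw [← hc, ← card_fib_eq i S]
        refine card_le_card fun g hg => ?_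
        have hg' : fib g i = S := (mem_filter.mp hg).2
        rw [mem_filter, mem_filter]
        refine ⟨⟨mem_univ _, ?_⟩, hg'⟩
        unfold two
        rw [mem_filter]
        exact ⟨mem_univ _, by rw [hg', hc]⟩

theorem e_bound (M : ℕ) : ((M : ℝ) + 1) ^ M ≤ 3 * (M : ℝ) ^ M := by
  rcases Nat.eq_zero_or_pos M with h | h
  · subst h; norm_num
  · have hM : (0 : ℝ) < M := by exact_mod_cast h
    have h1 : 1 + 1 / (M : ℝ) ≤ Real.exp (1 / M) := by
      have := Real.add_one_le_exp (1 / (M : ℝ))
      linarith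
    have h2 : (1 + 1 / (M : ℝ)) ^ M ≤ 3 := by
      calc (1 + 1 / (M : ℝ)) ^ M ≤ (Real.exp (1 / M)) ^ M :=
            pow_le_pow_left₀ (by positivity) h1 M
        _ = Real.exp 1 := by
            rw [← Real.exp_nat_mul]
            congr 1
            field_simp
        _ ≤ 3 := by linarith [Real.exp_one_lt_d9]
    have e : (M : ℝ) + 1 = (1 + 1 / (M : ℝ)) * M := by field_simp
    rw [e, mul_pow]
    exact mul_le_mul_of_nonneg_right h2 (by positivity)

theorem mean (N : ℕ) (hN : 1 ≤ N) :
    (N : ℝ) / 9 ≤ E (fun g : Fin (2 * N) → Fin N => ((two g).card : ℝ)) := by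
  classical
  obtain ⟨M, rfl⟩ : ∃ M, N = M + 1 := ⟨N - 1, by omega⟩
  have h1 : ∑ g : Fin (2 * (M + 1)) → Fin (M + 1), ((two g).card : ℝ)
      = ∑ i : Fin (M + 1), (((univ : Finset (Fin (2 * (M + 1)) → Fin (M + 1))).filter
        fun g => i ∈ two g).card : ℝ) := by
    have h2 : ∀ g : Fin (2 * (M + 1)) → Fin (M + 1), ((two g).card : ℝ)
        = ∑ i : Fin (M + 1), if i ∈ two g then (1 : ℝ) else 0 := by
      intro g
      rw [sum_boole]
      congr 2
      ext i; simp
    have h3 : ∀ i : Fin (M + 1), (((univ : Finset (Fin (2 * (M + 1)) → Fin (M + 1))).filter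
        fun g => i ∈ two g).card : ℝ)
        = ∑ g : Fin (2 * (M + 1)) → Fin (M + 1), if i ∈ two g then (1 : ℝ) else 0 := by
      intro i
      rw [sum_boole]
    rw [sum_congr rfl fun g _ => h2 g, sum_comm, sum_congr rfl fun i _ => (h3 i).symm]
  have h4 : ((M : ℝ) + 1) * ((((M : ℝ) + 1) * (2 * M + 1)) * (M : ℝ) ^ (2 * M))
      ≤ ∑ g : Fin (2 * (M + 1)) → Fin (M + 1), ((two g).card : ℝ) := by
    rw [h1]
    calc ((M : ℝ) + 1) * ((((M : ℝ) + 1) * (2 * M + 1)) * (M : ℝ) ^ (2 * M))
        = ∑ _i : Fin (M + 1), (((M : ℝ) + 1) * (2 * M + 1)) * (M : ℝ) ^ (2 * M) := by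
          simp
      _ ≤ _ := by
          refine sum_le_sum fun i _ => ?_
          have h5 := card_fib_two (n := 2 * (M + 1)) i
          have h6 : (2 * (M + 1)).choose 2 = (M + 1) * (2 * M + 1) := by
            rw [Nat.choose_two_right]
            have : 2 * (M + 1) * (2 * (M + 1) - 1) = ((M + 1) * (2 * M + 1)) * 2 := by
              have : 2 * (M + 1) - 1 = 2 * M + 1 := by omega
              rw [this]; ring
            rw [this, Nat.mul_div_cancel _ (by norm_num)]
          have h7 : 2 * (M + 1) - 2 = 2 * M := by omega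
          rw [h6, h7, Nat.add_sub_cancel] at h5
          exact_mod_cast h5
  unfold E
  rw [Fintype.card_fun, Fintype.card_fin, Fintype.card_fin]
  push_cast
  have hM0 : (0 : ℝ) < (M : ℝ) + 1 := by positivity
  rw [le_div_iff₀ (by positivity)]
  refine le_trans ?_ h4
  have h8 := e_bound M
  have h9 : (((M : ℝ) + 1) ^ M) ^ 2 ≤ (3 * (M : ℝ) ^ M) ^ 2 :=
    pow_le_pow_left₀ (by positivity) h8 2
  calc ((M : ℝ) + 1) / 9 * ((M : ℝ) + 1) ^ (2 * (M + 1))
      = ((M : ℝ) + 1) ^ 3 / 9 * (((M : ℝ) + 1) ^ M) ^ 2 := by ring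
    _ ≤ ((M : ℝ) + 1) ^ 3 / 9 * (3 * (M : ℝ) ^ M) ^ 2 :=
        mul_le_mul_of_nonneg_left h9 (by positivity)
    _ = ((M : ℝ) + 1) * ((((M : ℝ) + 1) * (M + 1)) * (M : ℝ) ^ (2 * M)) := by ring
    _ ≤ _ := by
        have : (0 : ℝ) ≤ M := Nat.cast_nonneg M
        gcongr
        linarith

/-- few maps have few fibres of size two -/
theorem tail (N : ℕ) (hN : 1 ≤ N) :
    (((univ : Finset (Fin (2 * N) → Fin N)).filter fun g => ((two g).card : ℝ) < N / 18).card : ℝ)
      ≤ 648 / N * (N : ℝ) ^ (2 * N) := by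
  classical
  have hN0 : (0 : ℝ) < N := by exact_mod_cast hN
  have hm := mean N hN
  have hv := variance (2 * N) N
  obtain ⟨m, hmd⟩ : ∃ m : ℝ, m = E (fun g : Fin (2 * N) → Fin N => ((two g).card : ℝ)) :=
    ⟨_, rfl⟩
  rw [← hmd] at hm hv
  have hK : (0 : ℝ) < (N : ℝ) ^ (2 * N) := by positivity
  have hcard : ((Fintype.card (Fin (2 * N) → Fin N) : ℕ) : ℝ) = (N : ℝ) ^ (2 * N) := by
    rw [Fintype.card_fun, Fintype.card_fin, Fintype.card_fin]
    push_cast
    rfl
  unfold E at hmd hv
  rw [hcard] at hmd hv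
  have h1 : ∑ g : Fin (2 * N) → Fin N, ((two g).card : ℝ) = m * (N : ℝ) ^ (2 * N) := by
    rw [hmd]; field_simp
  have h2 : ∑ g : Fin (2 * N) → Fin N, ((two g).card : ℝ) ^ 2
      ≤ (2 * N + m ^ 2) * (N : ℝ) ^ (2 * N) := by
    rw [sub_le_iff_le_add, div_le_iff₀ hK] at hv
    push_cast at hv
    exact hv
  have h3 : ∑ g : Fin (2 * N) → Fin N, (((two g).card : ℝ) - m) ^ 2
      ≤ 2 * N * (N : ℝ) ^ (2 * N) := by
    have h4 : ∑ g : Fin (2 * N) → Fin N, (((two g).card : ℝ) - m) ^ 2
        = ∑ g : Fin (2 * N) → Fin N, ((two g).card : ℝ) ^ 2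
          - 2 * m * ∑ g : Fin (2 * N) → Fin N, ((two g).card : ℝ)
          + (N : ℝ) ^ (2 * N) * m ^ 2 := by
      rw [mul_sum, ← sum_sub_distrib, ← hcard]
      have h5 : ((Fintype.card (Fin (2 * N) → Fin N) : ℕ) : ℝ) * m ^ 2
          = ∑ _g : Fin (2 * N) → Fin N, m ^ 2 := by
        rw [sum_const, card_univ, nsmul_eq_mul]
      rw [h5, ← sum_add_distrib]
      refine sum_congr rfl fun g _ => ?_
      ring
    rw [h4, h1]
    nlinarith
  have h6 : (((univ : Finset (Fin (2 * N) → Fin N)).filter
      fun g => ((two g).card : ℝ) < N / 18).card : ℝ) * (N / 18) ^ 2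
      ≤ 2 * N * (N : ℝ) ^ (2 * N) := by
    refine le_trans ?_ h3
    calc (((univ : Finset (Fin (2 * N) → Fin N)).filter
          fun g => ((two g).card : ℝ) < N / 18).card : ℝ) * ((N : ℝ) / 18) ^ 2
        = ∑ _g ∈ (univ : Finset (Fin (2 * N) → Fin N)).filter
          (fun g => ((two g).card : ℝ) < N / 18), ((N : ℝ) / 18) ^ 2 := by
          rw [sum_const, nsmul_eq_mul]
      _ ≤ ∑ g ∈ (univ : Finset (Fin (2 * N) → Fin N)).filter
          (fun g => ((two g).card : ℝ) < N / 18), (((two g).card : ℝ) - m) ^ 2 := by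
          refine sum_le_sum fun g hg => ?_
          have h7 := (mem_filter.mp hg).2
          have h8 : (N : ℝ) / 18 ≤ m - (two g).card := by linarith
          have h9 : (((two g).card : ℝ) - m) ^ 2 = (m - (two g).card) ^ 2 := by ring
          rw [h9]
          exact pow_le_pow_left₀ (by positivity) h8 2
      _ ≤ _ := sum_le_sum_of_subset_of_nonneg (filter_subset _ _) fun _ _ _ => sq_nonneg _
  have h10 : (0 : ℝ) < (N / 18) ^ 2 := by positivity
  refine le_of_mul_le_mul_right (h6.trans (le_of_eq ?_)) h10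
  field_simp
  norm_num

/-- the number of bit vectors -/
theorem bitsR {n N : ℕ} (hn : 0 < n) (g : Fin n → Fin N) (j : ℕ) :
    (((univ : Finset (Fin n → Bool)).filter fun b =>
      (univ.image fun x => (g x, b x)).card = j).card : ℝ)
      ≤ 2 ^ n / Real.sqrt ((two g).card + 1) := by
  have : Nonempty (Fin n) := ⟨⟨0, hn⟩⟩
  have h := bits g j
  rw [Fintype.card_fin] at h
  have h' : (2 : ℝ) ^ (two g).card * (((univ : Finset (Fin n → Bool)).filter fun b =>
      (univ.image fun x => (g x, b x)).card = j).card : ℝ)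
      ≤ 2 ^ n * (((two g).card).choose ((two g).card / 2) : ℝ) := by exact_mod_cast h
  have h2 := midR (two g).card
  have h3 : (0 : ℝ) < 2 ^ (two g).card := by positivity
  refine le_of_mul_le_mul_left ?_ h3
  calc (2 : ℝ) ^ (two g).card * (((univ : Finset (Fin n → Bool)).filter fun b =>
      (univ.image fun x => (g x, b x)).card = j).card : ℝ)
      ≤ 2 ^ n * (((two g).card).choose ((two g).card / 2) : ℝ) := h'
    _ ≤ 2 ^ n * (2 ^ (two g).card / Real.sqrt ((two g).card + 1)) :=
        mul_le_mul_of_nonneg_left h2 (by positivity)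
    _ = _ := by ring

theorem decomp (N j : ℕ) (hN : 1 ≤ N) :
    (((univ : Finset (Fin (2 * N) → Fin (2 * N))).filter fun f => rk f = j).card : ℝ)
      ≤ ∑ g : Fin (2 * N) → Fin N, 2 ^ (2 * N) / Real.sqrt ((two g).card + 1) := by
  classical
  have hc : Fintype.card (Fin (2 * N)) = Fintype.card (Fin N × Bool) := by
    rw [Fintype.card_prod, Fintype.card_fin, Fintype.card_fin, Fintype.card_bool]
    ring
  let e : Fin (2 * N) ≃ Fin N × Bool := Fintype.equivOfCardEq hc
  have h1 : ((univ : Finset (Fin (2 * N) → Fin (2 * N))).filter fun f => rk f = j).card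
      = ∑ g ∈ (univ : Finset (Fin (2 * N) → Fin N)),
        (((univ : Finset (Fin (2 * N) → Fin (2 * N))).filter fun f => rk f = j).filter
          fun f => (fun x => (e (f x)).1) = g).card :=
    card_eq_sum_card_fiberwise (f := fun f : Fin (2 * N) → Fin (2 * N) => fun x => (e (f x)).1)
      (fun _ _ => by simp)
  rw [h1]
  push_cast
  refine sum_le_sum fun g _ => ?_
  refine le_trans ?_ (bitsR (by omega) g j)
  have h2 : (((univ : Finset (Fin (2 * N) → Fin (2 * N))).filter fun f => rk f = j).filter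
          fun f => (fun x => (e (f x)).1) = g).card
      ≤ ((univ : Finset (Fin (2 * N) → Bool)).filter fun b =>
      (univ.image fun x => (g x, b x)).card = j).card := by
    refine card_le_card_of_injOn (fun f x => (e (f x)).2) ?_ ?_
    · intro f hf
      rw [mem_coe, mem_filter, mem_filter] at hf
      obtain ⟨⟨-, h3⟩, h4⟩ := hf
      rw [mem_coe, mem_filter]
      refine ⟨mem_univ _, ?_⟩
      have h5 : (univ.image fun x => (g x, (e (f x)).2)) = (im f).image e := by
        unfold im
        rw [image_image]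
        refine image_congr fun x _ => ?_
        have h6 : (e (f x)).1 = g x := congrFun h4 x
        exact Prod.ext h6.symm rfl
      rw [h5, card_image_of_injective _ e.injective]
      exact h3
    · intro f hf f' hf' h
      rw [mem_coe, mem_filter] at hf hf'
      funext x
      have h6 : (e (f x)).1 = (e (f' x)).1 := (congrFun hf.2 x).trans (congrFun hf'.2 x).symm
      have h7 : (e (f x)).2 = (e (f' x)).2 := congrFun h x
      exact e.injective (Prod.ext h6 h7)
  exact_mod_cast h2

end Ac

open Ac in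
/-- SG-AC -/
theorem ac : SAC := by
  classical
  refine ⟨1302, by norm_num, ?_⟩
  intro n hn he j
  obtain ⟨N, hN2⟩ := he
  have hnN : n = 2 * N := by omega
  subst hnN
  have hN : 1 ≤ N := by omega
  have hN0 : (0 : ℝ) < N := by exact_mod_cast hN
  have hN1 : (1 : ℝ) ≤ N := by exact_mod_cast hN
  refine (decomp N j hN).trans ?_
  obtain ⟨s, hs⟩ : ∃ s : ℝ, s = Real.sqrt ((2 * N : ℕ) : ℝ) := ⟨_, rfl⟩
  have hs2 : s ^ 2 = 2 * N := by
    rw [hs, Real.sq_sqrt (Nat.cast_nonneg _)]
    push_cast
    ring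
  have hs0 : 0 < s := by
    rw [hs]
    exact Real.sqrt_pos.mpr (by push_cast; positivity)
  have hs1 : 1 ≤ s := by nlinarith
  rw [← hs]
  have hK : (0 : ℝ) < (N : ℝ) ^ (2 * N) := by positivity
  have hcard : ((Fintype.card (Fin (2 * N) → Fin N) : ℕ) : ℝ) = (N : ℝ) ^ (2 * N) := by
    rw [Fintype.card_fun, Fintype.card_fin, Fintype.card_fin]
    push_cast
    rfl
  have hpt : ∀ g : Fin (2 * N) → Fin N, (2 : ℝ) ^ (2 * N) / Real.sqrt ((two g).card + 1)
      ≤ 2 ^ (2 * N) * (6 / s) + (if ((two g).card : ℝ) < N / 18 then 2 ^ (2 * N) else 0) := by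
    intro g
    have h1 : (1 : ℝ) ≤ Real.sqrt ((two g).card + 1) := by
      rw [Real.one_le_sqrt]
      have : (0 : ℝ) ≤ (two g).card := Nat.cast_nonneg _
      linarith
    split_ifs with h
    · have h2 : (2 : ℝ) ^ (2 * N) / Real.sqrt ((two g).card + 1) ≤ 2 ^ (2 * N) :=
        div_le_self (by positivity) h1
      have h3 : (0 : ℝ) ≤ 2 ^ (2 * N) * (6 / s) := by positivity
      linarith
    · rw [not_lt] at h
      rw [add_zero, div_eq_mul_inv]
      refine mul_le_mul_of_nonneg_left ?_ (by positivity)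
      have h4 : s / 6 ≤ Real.sqrt ((two g).card + 1) := by
        refine Real.le_sqrt_of_sq_le ?_
        rw [div_pow, hs2]
        linarith
      calc (Real.sqrt ((two g).card + 1))⁻¹ ≤ (s / 6)⁻¹ := inv_anti₀ (by positivity) h4
        _ = 6 / s := inv_div _ _
  calc ∑ g : Fin (2 * N) → Fin N, (2 : ℝ) ^ (2 * N) / Real.sqrt ((two g).card + 1)
      ≤ ∑ g : Fin (2 * N) → Fin N, (2 ^ (2 * N) * (6 / s)
        + (if ((two g).card : ℝ) < N / 18 then 2 ^ (2 * N) else 0)) :=
        sum_le_sum fun g _ => hpt g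
    _ = (N : ℝ) ^ (2 * N) * (2 ^ (2 * N) * (6 / s))
        + (((univ : Finset (Fin (2 * N) → Fin N)).filter
          fun g => ((two g).card : ℝ) < N / 18).card : ℝ) * 2 ^ (2 * N) := by
        rw [sum_add_distrib, sum_const, card_univ, nsmul_eq_mul, hcard, ← sum_filter, sum_const,
          nsmul_eq_mul]
    _ ≤ (N : ℝ) ^ (2 * N) * (2 ^ (2 * N) * (6 / s))
        + (648 / N * (N : ℝ) ^ (2 * N)) * 2 ^ (2 * N) := by
        have := tail N hN
        gcongr
    _ = ((N : ℝ) ^ (2 * N) * 2 ^ (2 * N)) * (6 / s + 648 / N) := by ring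
    _ ≤ ((N : ℝ) ^ (2 * N) * 2 ^ (2 * N)) * (1302 / s) := by
        refine mul_le_mul_of_nonneg_left ?_ (by positivity)
        have h5 : (648 : ℝ) / N = 1296 / s ^ 2 := by
          rw [hs2]
          field_simp
          norm_num
        have h6 : (1296 : ℝ) / s ^ 2 ≤ 1296 / s := by
          refine div_le_div_of_nonneg_left (by norm_num) hs0 ?_
          nlinarith
        calc 6 / s + 648 / N ≤ 6 / s + 1296 / s := by rw [h5]; linarith
          _ = 1302 / s := by ring
    _ = 1302 / s * ((2 * N : ℕ) : ℝ) ^ (2 * N) := by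
        push_cast
        rw [mul_pow]
        ring

end Pool.Agent.R568.SG
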