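import Pool.Agent.R341.SG.Stm

/-! SG-POI (project SG of helper341, MP_2b9fb5_al): from a level to the product measure. -/

set_option autoImplicit false

namespace Pool.Agent.R568.SG

open Finset Pool.Agent.R341.SG

namespace Poi

/-! ### double counting -/

/-- the sets of size `d` above `A` -/
def up (n : ℕ) (A : Finset (Finset (Fin n))) (d : ℕ) : Finset (Finset (Fin n)) :=
  (powersetCard d univ).filter fun D => ∃ D0 ∈ A, D0 ⊆ D

theorem mem_up {n : ℕ} {A : Finset (Finset (Fin n))} {d : ℕ} {D : Finset (Fin n)} :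
    D ∈ up n A d ↔ D.card = d ∧ ∃ D0 ∈ A, D0 ⊆ D := by
  unfold up
  rw [mem_filter, mem_powersetCard]
  exact ⟨fun h => ⟨h.1.2, h.2⟩, fun h => ⟨⟨subset_univ _, h.1⟩, h.2⟩⟩

theorem step (n : ℕ) (A : Finset (Finset (Fin n))) (d : ℕ) :
    (up n A d).card * (n - d) ≤ (up n A (d + 1)).card * (d + 1) := by
  classical
  refine card_mul_le_card_mul (fun D D' => D ⊆ D') ?_ ?_
  · intro D hD
    obtain ⟨hc, D0, hD0, hsub⟩ := mem_up.mp hD
    have h1 : (Dᶜ).card = n - d := by
      rw [card_compl, Fintype.card_fin, hc]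
    rw [← h1]
    refine card_le_card_of_injOn (fun x => insert x D) ?_ ?_
    · intro x hx
      rw [mem_coe, mem_compl] at hx
      rw [mem_coe, mem_bipartiteAbove]
      exact ⟨mem_up.mpr ⟨by rw [card_insert_of_notMem hx, hc], D0, hD0,
        hsub.trans (subset_insert _ _)⟩, subset_insert _ _⟩
    · intro x hx y hy hxy
      rw [mem_coe, mem_compl] at hx hy
      have : x ∈ insert y D := by
        have h2 : insert x D = insert y D := hxy
        rw [← h2]
        exact mem_insert_self _ _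
      rcases mem_insert.mp this with h | h
      · exact h
      · exact absurd h hx
  · intro D' hD'
    obtain ⟨hc, -⟩ := mem_up.mp hD'
    have h1 : (powersetCard d D').card = d + 1 := by
      rw [card_powersetCard, hc, Nat.choose_succ_self_right]
    rw [← h1]
    refine card_le_card ?_
    intro D hD
    rw [mem_bipartiteBelow] at hD
    rw [mem_powersetCard]
    exact ⟨hD.2, (mem_up.mp hD.1).1⟩

theorem lym (n r : ℕ) (A : Finset (Finset (Fin n))) (hA : A ⊆ powersetCard r univ) :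
    ∀ k : ℕ, r + k ≤ n → A.card * n.choose (r + k) ≤ (up n A (r + k)).card * n.choose r := by
  intro k
  induction k with
  | zero =>
    intro _
    refine Nat.mul_le_mul_right _ (card_le_card ?_)
    intro D hD
    exact mem_up.mpr ⟨(mem_powersetCard.mp (hA hD)).2, D, hD, Subset.refl _⟩
  | succ k ih =>
    intro hk
    have h1 := ih (by omega)
    have h2 := step n A (r + k)
    have h3 := Nat.choose_succ_right_eq n (r + k)
    have h4 : 0 < r + k + 1 := by omega
    refine Nat.le_of_mul_le_mul_right ?_ h4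
    calc A.card * n.choose (r + (k + 1)) * (r + k + 1)
        = A.card * (n.choose (r + k + 1) * (r + k + 1)) := by rw [← add_assoc]; ring
      _ = A.card * n.choose (r + k) * (n - (r + k)) := by rw [h3]; ring
      _ ≤ (up n A (r + k)).card * n.choose r * (n - (r + k)) := Nat.mul_le_mul_right _ h1
      _ = (up n A (r + k)).card * (n - (r + k)) * n.choose r := by ring
      _ ≤ (up n A (r + k + 1)).card * (r + k + 1) * n.choose r := Nat.mul_le_mul_right _ h2
      _ = (up n A (r + (k + 1))).card * n.choose r * (r + k + 1) := by rw [← add_assoc]; ring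

/-! ### the binomial distribution -/

/-- binomial probabilities -/
noncomputable def b (p : ℝ) (n d : ℕ) : ℝ := (n.choose d : ℝ) * p ^ d * (1 - p) ^ (n - d)

theorem b_nonneg {p : ℝ} (hp : 0 ≤ p) (hp1 : p ≤ 1) (n d : ℕ) : 0 ≤ b p n d := by
  unfold b
  have : 0 ≤ 1 - p := by linarith
  positivity

theorem b_sum (p : ℝ) (n : ℕ) : ∑ d ∈ range (n + 1), b p n d = 1 := by
  have h := add_pow p (1 - p) n
  rw [add_sub_cancel, one_pow] at h
  rw [h]
  refine sum_congr rfl fun d _ => ?_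
  unfold b
  ring

theorem b_var (p : ℝ) (n : ℕ) :
    ∑ d ∈ range (n + 1), ((n : ℝ) * p - d) ^ 2 * b p n d = n * p * (1 - p) := by
  have h := congrArg (Polynomial.eval p) (bernsteinPolynomial.variance ℝ n)
  simp only [Polynomial.eval_finsetSum, bernsteinPolynomial] at h
  simp at h
  rw [← h]
  refine sum_congr rfl fun d _ => ?_
  unfold b
  ring

theorem b_step (p : ℝ) (n d : ℕ) (hd : d < n) :
    b p n (d + 1) * (((d : ℝ) + 1) * (1 - p)) = b p n d * (((n : ℝ) - d) * p) := by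
  unfold b
  have h3 := Nat.choose_succ_right_eq n d
  have h3' : ((n.choose (d + 1) : ℕ) : ℝ) * ((d : ℝ) + 1) = (n.choose d : ℝ) * ((n : ℝ) - d) := by
    have h4 : ((n.choose (d + 1) * (d + 1) : ℕ) : ℝ) = ((n.choose d * (n - d) : ℕ) : ℝ) := by
      rw [h3]
    push_cast [Nat.cast_sub hd.le] at h4
    exact h4
  have e : n - d = (n - (d + 1)) + 1 := by omega
  rw [e, pow_succ, pow_succ]
  calc (n.choose (d + 1) : ℝ) * (p ^ d * p) * (1 - p) ^ (n - (d + 1)) * (((d : ℝ) + 1) * (1 - p))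
      = ((n.choose (d + 1) : ℝ) * ((d : ℝ) + 1)) * (p ^ d * p * (1 - p) ^ (n - (d + 1)) * (1 - p)) := by
        ring
    _ = _ := by rw [h3']; ring

theorem exp_le {u : ℝ} (hu0 : 0 ≤ u) (hu : u ≤ 1 / 2) : Real.exp (-(2 * u)) ≤ 1 - u := by
  have h1 : 1 + 2 * u ≤ Real.exp (2 * u) := by
    have := Real.add_one_le_exp (2 * u)
    linarith
  rw [Real.exp_neg]
  have h2 : 0 < 1 + 2 * u := by linarith
  calc (Real.exp (2 * u))⁻¹ ≤ (1 + 2 * u)⁻¹ := inv_anti₀ h2 h1
    _ ≤ 1 - u := by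
        rw [inv_le_iff_one_le_mul₀ h2]
        nlinarith

/-- one step of the comparison of binomial probabilities in the bulk -/
theorem ratio {p L s : ℝ} (hp : 0 < p) (hp1 : p < 1) (hL : 0 ≤ L) {n : ℕ} (hs : s ^ 2 = n)
    (hs0 : 4 * (L + 1) ≤ p * (1 - p) * s) {d : ℕ} (hd : |(d : ℝ) - n * p| ≤ L * s) :
    Real.exp (-(2 * (2 * (L + 1) / (p * (1 - p) * s)))) * b p n d ≤ b p n (d + 1) ∧
    Real.exp (-(2 * (2 * (L + 1) / (p * (1 - p) * s)))) * b p n (d + 1) ≤ b p n d := by
  have hq : 0 < 1 - p := by linarith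
  have hv : 0 < p * (1 - p) := mul_pos hp hq
  have hvs : 0 < p * (1 - p) * s := by linarith
  have hs1 : 0 < s := by
    by_contra hc
    rw [not_lt] at hc
    nlinarith
  have hv4 : p * (1 - p) ≤ 1 / 4 := by nlinarith [sq_nonneg (p - 1 / 2)]
  have hs16 : 1 ≤ s := by nlinarith
  obtain ⟨u, hu⟩ : ∃ u : ℝ, u = 2 * (L + 1) / (p * (1 - p) * s) := ⟨_, rfl⟩
  rw [← hu]
  have hus : u * (p * (1 - p) * s) = 2 * (L + 1) := by
    rw [hu]; field_simp
  have hu0 : 0 ≤ u := by rw [hu]; positivity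
  have hu2 : u ≤ 1 / 2 := by
    rw [hu, div_le_iff₀ hvs]
    linarith
  have hE := exp_le hu0 hu2
  obtain ⟨hx1, hx2⟩ := abs_le.mp hd
  have hdn : d < n := by
    have h1 : (d : ℝ) < n := by
      have h2 : L * s < (1 - p) * n := by
        rw [← hs]
        have h3 : L < (1 - p) * s := by nlinarith
        nlinarith
      linarith
    exact_mod_cast h1
  have hst := b_step p n d hdn
  obtain ⟨P, hP⟩ : ∃ P : ℝ, P = ((n : ℝ) - d) * p := ⟨_, rfl⟩
  obtain ⟨Q, hQ⟩ : ∃ Q : ℝ, Q = ((d : ℝ) + 1) * (1 - p) := ⟨_, rfl⟩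
  rw [← hP, ← hQ] at hst
  have hb0 := b_nonneg hp.le hp1.le n d
  have hb1 := b_nonneg hp.le hp1.le n (d + 1)
  have hvs2 : 4 * (L + 1) * s ≤ p * (1 - p) * n := by
    rw [← hs]
    nlinarith
  have hLs0 : 0 ≤ L * s := mul_nonneg hL hs1.le
  have hLs : (L + 1) * s = L * s + s := by ring
  have hP2 : p * (1 - p) * n / 2 ≤ P := by
    have h1 : ((n : ℝ) - n * p - L * s) * p ≤ ((n : ℝ) - d) * p :=
      mul_le_mul_of_nonneg_right (by linarith) hp.le
    have h2 : L * s * p ≤ L * s := mul_le_of_le_one_right hLs0 hp1.le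
    rw [hP]
    linarith
  have hQ2 : p * (1 - p) * n / 2 ≤ Q := by
    have h1 : ((n : ℝ) * p - L * s) * (1 - p) ≤ ((d : ℝ) + 1) * (1 - p) :=
      mul_le_mul_of_nonneg_right (by linarith) hq.le
    have h2 : L * s * (1 - p) ≤ L * s := mul_le_of_le_one_right hLs0 (by linarith)
    rw [hQ]
    linarith
  have hn0 : 0 < p * (1 - p) * (n : ℝ) := by
    rw [← hs]; positivity
  have hPQ : P - Q ≤ (L + 1) * s ∧ Q - P ≤ (L + 1) * s := by
    rw [hP, hQ, hLs]
    constructor <;> linarith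
  have hun : u * (p * (1 - p) * n / 2) = (L + 1) * s := by
    rw [← hs]
    have : u * (p * (1 - p) * s ^ 2 / 2) = (u * (p * (1 - p) * s)) * s / 2 := by ring
    rw [this, hus]
    ring
  have hP0 : 0 < P := by linarith
  have hQ0 : 0 < Q := by linarith
  have h1 : (1 - u) * Q ≤ P := by
    have h3 := mul_le_mul_of_nonneg_left hQ2 hu0
    have h4 : (1 - u) * Q = Q - u * Q := by ring
    rw [h4]
    linarith [hPQ.2]
  have h2 : (1 - u) * P ≤ Q := by
    have h3 := mul_le_mul_of_nonneg_left hP2 hu0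
    have h4 : (1 - u) * P = P - u * P := by ring
    rw [h4]
    linarith [hPQ.1]
  constructor
  · refine (mul_le_mul_of_nonneg_right hE hb0).trans ?_
    refine le_of_mul_le_mul_right ?_ hQ0
    calc (1 - u) * b p n d * Q = b p n d * ((1 - u) * Q) := by ring
      _ ≤ b p n d * P := mul_le_mul_of_nonneg_left h1 hb0
      _ = b p n (d + 1) * Q := hst.symm
  · refine (mul_le_mul_of_nonneg_right hE hb1).trans ?_
    refine le_of_mul_le_mul_right ?_ hP0
    calc (1 - u) * b p n (d + 1) * P = b p n (d + 1) * ((1 - u) * P) := by ring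
      _ ≤ b p n (d + 1) * Q := mul_le_mul_of_nonneg_left h2 hb1
      _ = b p n d * P := hst

theorem chain {p L s : ℝ} (hp : 0 < p) (hp1 : p < 1) (hL : 0 ≤ L) {n : ℕ} (hs : s ^ 2 = n)
    (hs0 : 4 * (L + 1) ≤ p * (1 - p) * s) {d : ℕ} (hd : |(d : ℝ) - n * p| ≤ L * s) (m : ℕ)
    (hm : |((d + m : ℕ) : ℝ) - n * p| ≤ L * s) :
    Real.exp (-(m * (4 * (L + 1) / (p * (1 - p) * s)))) * b p n d ≤ b p n (d + m) ∧
    Real.exp (-(m * (4 * (L + 1) / (p * (1 - p) * s)))) * b p n (d + m) ≤ b p n d := by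
  induction m with
  | zero => simp
  | succ m ih =>
    obtain ⟨hd1, hd2⟩ := abs_le.mp hd
    obtain ⟨hm1, hm2⟩ := abs_le.mp hm
    push_cast at hm1 hm2
    have hm' : |((d + m : ℕ) : ℝ) - n * p| ≤ L * s := by
      rw [abs_le]
      push_cast
      have : (0 : ℝ) ≤ m := Nat.cast_nonneg m
      constructor <;> linarith
    obtain ⟨h1, h2⟩ := ih hm'
    obtain ⟨h3, h4⟩ := ratio hp hp1 hL hs hs0 hm'
    have e : Real.exp (-(((m + 1 : ℕ) : ℝ) * (4 * (L + 1) / (p * (1 - p) * s))))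
        = Real.exp (-(2 * (2 * (L + 1) / (p * (1 - p) * s))))
          * Real.exp (-(m * (4 * (L + 1) / (p * (1 - p) * s)))) := by
      rw [← Real.exp_add]
      congr 1
      push_cast
      ring
    rw [e]
    constructor
    · calc Real.exp (-(2 * (2 * (L + 1) / (p * (1 - p) * s))))
            * Real.exp (-(m * (4 * (L + 1) / (p * (1 - p) * s)))) * b p n d
          = Real.exp (-(2 * (2 * (L + 1) / (p * (1 - p) * s))))
            * (Real.exp (-(m * (4 * (L + 1) / (p * (1 - p) * s)))) * b p n d) := by ring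
        _ ≤ Real.exp (-(2 * (2 * (L + 1) / (p * (1 - p) * s)))) * b p n (d + m) :=
            mul_le_mul_of_nonneg_left h1 (Real.exp_pos _).le
        _ ≤ b p n (d + (m + 1)) := h3
    · calc Real.exp (-(2 * (2 * (L + 1) / (p * (1 - p) * s))))
            * Real.exp (-(m * (4 * (L + 1) / (p * (1 - p) * s)))) * b p n (d + (m + 1))
          = Real.exp (-(m * (4 * (L + 1) / (p * (1 - p) * s))))
            * (Real.exp (-(2 * (2 * (L + 1) / (p * (1 - p) * s)))) * b p n (d + (m + 1))) := by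
            ring
        _ ≤ Real.exp (-(m * (4 * (L + 1) / (p * (1 - p) * s)))) * b p n (d + m) :=
            mul_le_mul_of_nonneg_left h4 (Real.exp_pos _).le
        _ ≤ b p n d := h2

/-- a typical value -/
theorem typ {p s : ℝ} (hp : 0 < p) (hp1 : p < 1) {n : ℕ} (hs : s ^ 2 = n) (hs1 : 1 ≤ s) :
    ∃ d : ℕ, |(d : ℝ) - n * p| ≤ s ∧ 1 / (8 * s) ≤ b p n d := by
  classical
  have hq : 0 < 1 - p := by linarith
  by_contra hcon
  push Not at hcon
  have hn0 : (0 : ℝ) < n := by rw [← hs]; positivity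
  have hsplit := sum_filter_add_sum_filter_not (range (n + 1))
    (fun d : ℕ => |(d : ℝ) - n * p| ≤ s) (fun d => b p n d)
  rw [b_sum] at hsplit
  have hbad : ∑ d ∈ (range (n + 1)).filter (fun d : ℕ => ¬ |(d : ℝ) - n * p| ≤ s), b p n d
      ≤ 1 / 4 := by
    have h1 : ∑ d ∈ (range (n + 1)).filter (fun d : ℕ => ¬ |(d : ℝ) - n * p| ≤ s),
        (n : ℝ) * b p n d ≤ ∑ d ∈ range (n + 1), ((n : ℝ) * p - d) ^ 2 * b p n d := by
      calc ∑ d ∈ (range (n + 1)).filter (fun d : ℕ => ¬ |(d : ℝ) - n * p| ≤ s),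
            (n : ℝ) * b p n d
          ≤ ∑ d ∈ (range (n + 1)).filter (fun d : ℕ => ¬ |(d : ℝ) - n * p| ≤ s),
            ((n : ℝ) * p - d) ^ 2 * b p n d := by
            refine sum_le_sum fun d hd => ?_
            refine mul_le_mul_of_nonneg_right ?_ (b_nonneg hp.le hp1.le n d)
            have h2 := (mem_filter.mp hd).2
            rw [not_le] at h2
            have h4 : (n : ℝ) = s ^ 2 := hs.symm
            have h5 : s ^ 2 ≤ ((n : ℝ) * p - d) ^ 2 := by
              rw [← sq_abs ((n : ℝ) * p - d), abs_sub_comm]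
              exact pow_le_pow_left₀ (by linarith) h2.le 2
            exact h4.le.trans h5
        _ ≤ _ := sum_le_sum_of_subset_of_nonneg (filter_subset _ _) fun d _ _ =>
            mul_nonneg (sq_nonneg _) (b_nonneg hp.le hp1.le n d)
    rw [← mul_sum, b_var] at h1
    have h3 : (n : ℝ) * p * (1 - p) ≤ n * (1 / 4) := by nlinarith [sq_nonneg (p - 1 / 2)]
    exact le_of_mul_le_mul_left (h1.trans h3) hn0
  have hgood : ∑ d ∈ (range (n + 1)).filter (fun d : ℕ => |(d : ℝ) - n * p| ≤ s), b p n d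
      ≤ 3 / 8 := by
    have h1 : (((range (n + 1)).filter (fun d : ℕ => |(d : ℝ) - n * p| ≤ s)).card : ℝ)
        ≤ 2 * s + 1 := by
      have h2 : ((range (n + 1)).filter (fun d : ℕ => |(d : ℝ) - n * p| ≤ s))
          ⊆ Icc ⌈(n : ℝ) * p - s⌉₊ ⌊(n : ℝ) * p + s⌋₊ := by
        intro d hd
        obtain ⟨h3, h4⟩ := abs_le.mp (mem_filter.mp hd).2
        rw [mem_Icc]
        exact ⟨Nat.ceil_le.mpr (by linarith), Nat.le_floor (by linarith)⟩
      have h5 := card_le_card h2
      rw [Nat.card_Icc] at h5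
      have h6 : ((⌊(n : ℝ) * p + s⌋₊ + 1 - ⌈(n : ℝ) * p - s⌉₊ : ℕ) : ℝ) ≤ 2 * s + 1 := by
        have h7 := Nat.le_ceil ((n : ℝ) * p - s)
        have h8 := Nat.floor_le (show 0 ≤ (n : ℝ) * p + s by positivity)
        rcases le_total ⌈(n : ℝ) * p - s⌉₊ (⌊(n : ℝ) * p + s⌋₊ + 1) with h9 | h9
        · rw [Nat.cast_sub h9]
          push_cast
          linarith
        · rw [Nat.sub_eq_zero_of_le h9]
          push_cast
          linarith
      exact le_trans (by exact_mod_cast h5) h6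
    calc ∑ d ∈ (range (n + 1)).filter (fun d : ℕ => |(d : ℝ) - n * p| ≤ s), b p n d
        ≤ ∑ _d ∈ (range (n + 1)).filter (fun d : ℕ => |(d : ℝ) - n * p| ≤ s), 1 / (8 * s) :=
          sum_le_sum fun d hd => (hcon d (mem_filter.mp hd).2).le
      _ = (((range (n + 1)).filter (fun d : ℕ => |(d : ℝ) - n * p| ≤ s)).card : ℝ)
          * (1 / (8 * s)) := by rw [sum_const, nsmul_eq_mul]
      _ ≤ (3 * s) * (1 / (8 * s)) :=
          mul_le_mul_of_nonneg_right (h1.trans (by linarith)) (by positivity)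
      _ = 3 / 8 := by
          field_simp
  linarith

theorem low {p L s : ℝ} (hp : 0 < p) (hp1 : p < 1) (hL : 1 ≤ L) {n : ℕ} (hs : s ^ 2 = n)
    (hs0 : 4 * (L + 1) ≤ p * (1 - p) * s) {d : ℕ} (hd : |(d : ℝ) - n * p| ≤ (L - 1) * s) :
    Real.exp (-(4 * L * (L + 1) / (p * (1 - p)))) / (8 * s) ≤ b p n d := by
  have hq : 0 < 1 - p := by linarith
  have hv : 0 < p * (1 - p) := mul_pos hp hq
  have hs1 : 0 < s := by
    by_contra hc
    rw [not_lt] at hc
    nlinarith
  have hv4 : p * (1 - p) ≤ 1 / 4 := by nlinarith [sq_nonneg (p - 1 / 2)]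
  have hs16 : 1 ≤ s := by nlinarith
  obtain ⟨d', hd', hb'⟩ := typ hp hp1 hs hs16
  have hd1 : |(d : ℝ) - n * p| ≤ L * s := hd.trans (by nlinarith)
  have hd2 : |(d' : ℝ) - n * p| ≤ L * s := hd'.trans (by nlinarith)
  have hb0 := b_nonneg hp.le hp1.le n d'
  have key : ∀ m : ℕ, (m : ℝ) ≤ L * s → Real.exp (-(4 * L * (L + 1) / (p * (1 - p)))) ≤
      Real.exp (-(m * (4 * (L + 1) / (p * (1 - p) * s)))) := by
    intro m hm
    refine Real.exp_le_exp.mpr (neg_le_neg ?_)
    calc (m : ℝ) * (4 * (L + 1) / (p * (1 - p) * s))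
        ≤ (L * s) * (4 * (L + 1) / (p * (1 - p) * s)) :=
          mul_le_mul_of_nonneg_right hm (by positivity)
      _ = 4 * L * (L + 1) / (p * (1 - p)) := by
          field_simp
  obtain ⟨ha, ha'⟩ := abs_le.mp hd
  obtain ⟨hc, hc'⟩ := abs_le.mp hd'
  have fin : ∀ m : ℕ, (m : ℝ) ≤ L * s →
      Real.exp (-(m * (4 * (L + 1) / (p * (1 - p) * s)))) * b p n d' ≤ b p n d →
      Real.exp (-(4 * L * (L + 1) / (p * (1 - p)))) / (8 * s) ≤ b p n d := by
    intro m hm h
    calc Real.exp (-(4 * L * (L + 1) / (p * (1 - p)))) / (8 * s)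
        = Real.exp (-(4 * L * (L + 1) / (p * (1 - p)))) * (1 / (8 * s)) := by ring
      _ ≤ Real.exp (-(m * (4 * (L + 1) / (p * (1 - p) * s)))) * b p n d' :=
          mul_le_mul (key m hm) hb' (by positivity) (Real.exp_pos _).le
      _ ≤ b p n d := h
  rcases le_total d d' with h | h
  · obtain ⟨m, rfl⟩ := Nat.exists_eq_add_of_le h
    have hm : (m : ℝ) ≤ L * s := by
      push_cast at hc'
      linarith
    exact fin m hm (chain hp hp1 (by linarith) hs hs0 hd1 m hd2).2
  · obtain ⟨m, rfl⟩ := Nat.exists_eq_add_of_le h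
    have hm : (m : ℝ) ≤ L * s := by
      push_cast at ha'
      linarith
    exact fin m hm (chain hp hp1 (by linarith) hs hs0 hd2 m hd1).1

theorem rho_pos : 0 < rho ∧ rho < 1 := by
  unfold rho
  have h1 : Real.exp (-1) < 1 := by
    rw [Real.exp_lt_one_iff]; norm_num
  have h2 := Real.exp_pos (-1)
  constructor <;> linarith

end Poi

open Poi in
/-- SG-POI -/
theorem poi : SPOI := by
  intro η c K hη hc hK
  obtain ⟨hp, hp1⟩ := rho_pos
  have hq : 0 < 1 - rho := by linarith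
  have hv : 0 < rho * (1 - rho) := mul_pos hp hq
  obtain ⟨L, hLd⟩ : ∃ L : ℝ, L = K + c + 1 := ⟨_, rfl⟩
  have hL : 1 ≤ L := by linarith
  obtain ⟨κ, hκd⟩ : ∃ κ : ℝ, κ = Real.exp (-(4 * L * (L + 1) / (rho * (1 - rho)))) := ⟨_, rfl⟩
  have hκ : 0 < κ := by rw [hκd]; exact Real.exp_pos _
  refine ⟨c * (η * (κ / 8)), by positivity, ⌈(4 * (L + 1) / (rho * (1 - rho))) ^ 2⌉₊, ?_⟩
  intro n hn r hr A hA hAc
  obtain ⟨s, hsd⟩ : ∃ s : ℝ, s = Real.sqrt n := ⟨_, rfl⟩
  have hs : s ^ 2 = n := by rw [hsd]; exact Real.sq_sqrt (Nat.cast_nonneg n)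
  have hs0 : 4 * (L + 1) ≤ rho * (1 - rho) * s := by
    have h1 : (4 * (L + 1) / (rho * (1 - rho))) ^ 2 ≤ (n : ℝ) := Nat.ceil_le.mp hn
    have h2 : 4 * (L + 1) / (rho * (1 - rho)) ≤ s := by
      rw [hsd]
      exact Real.le_sqrt_of_sq_le h1
    rw [div_le_iff₀ hv] at h2
    linarith
  have hs1 : 0 < s := by
    by_contra hcc
    rw [not_lt] at hcc
    nlinarith
  rw [← hsd] at hr
  obtain ⟨hr1, hr2⟩ := abs_le.mp hr
  obtain ⟨m, hmd⟩ : ∃ m : ℕ, m = ⌊c * s⌋₊ := ⟨_, rfl⟩
  have hm1 : (m : ℝ) ≤ c * s := by rw [hmd]; exact Nat.floor_le (by positivity)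
  have hm2 : c * s ≤ (m : ℝ) + 1 := by rw [hmd]; exact (Nat.lt_floor_add_one _).le
  have hwin : ∀ d ∈ Icc r (r + m), |(d : ℝ) - n * rho| ≤ (L - 1) * s := by
    intro d hd
    rw [mem_Icc] at hd
    have h1 : (r : ℝ) ≤ d := by exact_mod_cast hd.1
    have h2 : (d : ℝ) ≤ r + m := by exact_mod_cast hd.2
    rw [abs_le, hLd]
    constructor <;> nlinarith
  have hlt : ∀ d ∈ Icc r (r + m), d ≤ n := by
    intro d hd
    obtain ⟨-, h2⟩ := abs_le.mp (hwin d hd)
    have h3 : (d : ℝ) ≤ n := by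
      have h4 : L * s ≤ (1 - rho) * n := by
        rw [← hs]
        have h5 : L ≤ (1 - rho) * s := by nlinarith
        nlinarith
      nlinarith
    exact_mod_cast h3
  have hmu : ∀ D : Finset (Fin n), 0 ≤ mu D := by
    intro D
    unfold mu
    positivity
  classical
  have hdisj : ∀ d ∈ Icc r (r + m), ∀ d' ∈ Icc r (r + m), d ≠ d' →
      Disjoint (up n A d) (up n A d') := by
    intro d _ d' _ hne
    rw [disjoint_left]
    intro D hD hD'
    exact hne ((mem_up.mp hD).1.symm.trans (mem_up.mp hD').1)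
  have hrn : 0 < (n.choose r : ℝ) := by
    have : 0 < n.choose r := Nat.choose_pos (hlt r (mem_Icc.mpr ⟨le_rfl, by omega⟩))
    exact_mod_cast this
  have hone : ∀ d ∈ Icc r (r + m), η * (κ / (8 * s)) ≤ ∑ D ∈ up n A d, mu D := by
    intro d hd
    have h1 : ∑ D ∈ up n A d, mu D = ((up n A d).card : ℝ) * (rho ^ d * (1 - rho) ^ (n - d)) := by
      rw [← nsmul_eq_mul, ← sum_const]
      refine sum_congr rfl fun D hD => ?_
      unfold mu
      rw [(mem_up.mp hD).1]
    have h2 : η * (n.choose d : ℝ) ≤ ((up n A d).card : ℝ) := by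
      obtain ⟨k, rfl⟩ := Nat.exists_eq_add_of_le (mem_Icc.mp hd).1
      have h3 := lym n r A hA k (hlt _ hd)
      have h4 : (A.card : ℝ) * (n.choose (r + k) : ℝ)
          ≤ ((up n A (r + k)).card : ℝ) * (n.choose r : ℝ) := by exact_mod_cast h3
      refine le_of_mul_le_mul_right ?_ hrn
      calc η * (n.choose (r + k) : ℝ) * (n.choose r : ℝ)
          = (η * (n.choose r : ℝ)) * (n.choose (r + k) : ℝ) := by ring
        _ ≤ (A.card : ℝ) * (n.choose (r + k) : ℝ) :=
            mul_le_mul_of_nonneg_right hAc (Nat.cast_nonneg _)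
        _ ≤ _ := h4
    have h5 := low hp hp1 hL hs hs0 (hwin d hd)
    rw [← hκd] at h5
    rw [h1]
    calc η * (κ / (8 * s)) ≤ η * b rho n d := mul_le_mul_of_nonneg_left h5 hη.le
      _ = η * (n.choose d : ℝ) * (rho ^ d * (1 - rho) ^ (n - d)) := by unfold b; ring
      _ ≤ _ := mul_le_mul_of_nonneg_right h2 (by positivity)
  calc c * (η * (κ / 8)) = (c * s) * (η * (κ / (8 * s))) := by
        field_simp
    _ ≤ ((m : ℝ) + 1) * (η * (κ / (8 * s))) := mul_le_mul_of_nonneg_right hm2 (by positivity)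
    _ = ∑ _d ∈ Icc r (r + m), η * (κ / (8 * s)) := by
        rw [sum_const, Nat.card_Icc, nsmul_eq_mul]
        have e : r + m + 1 - r = m + 1 := by omega
        rw [e]
        push_cast
        ring
    _ ≤ ∑ d ∈ Icc r (r + m), ∑ D ∈ up n A d, mu D := sum_le_sum hone
    _ = ∑ D ∈ (Icc r (r + m)).biUnion (up n A), mu D :=
        (sum_biUnion fun d hd d' hd' hne => hdisj d hd d' hd' hne).symm
    _ ≤ _ := by
        refine sum_le_sum_of_subset_of_nonneg ?_ fun D _ _ => hmu D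
        intro D hD
        rw [mem_biUnion] at hD
        obtain ⟨d, hd, hD⟩ := hD
        obtain ⟨h1, h2⟩ := mem_up.mp hD
        rw [mem_filter]
        refine ⟨mem_univ _, ?_, h2⟩
        rw [h1, ← hsd]
        have h3 : (d : ℝ) ≤ r + m := by exact_mod_cast (mem_Icc.mp hd).2
        linarith

end Pool.Agent.R568.SG
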